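import Mathlib

/-! # The ring `𝔽₂[x, y]` and the Frobenius -/

set_option autoImplicit false

open MvPolynomial

namespace Pool.Agent.N150.TI

/-- the polynomial ring -/
abbrev R : Type := MvPolynomial (Fin 2) (ZMod 2)

instance : ExpChar R 2 := inferInstance

lemma noeth : IsNoetherianRing R := inferInstance

lemma frob_finite : (frobenius R 2).Finite := by
  apply RingHom.IsIntegral.to_finite
  · intro x
    refine ⟨Polynomial.X ^ 2 - Polynomial.C x, Polynomial.monic_X_pow_sub_C x (by norm_num), ?_⟩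
    simp [frobenius_def]
  · have h1 : (algebraMap (ZMod 2) R).FiniteType := by
      have : Algebra.FiniteType (ZMod 2) R := inferInstance
      exact (RingHom.finiteType_algebraMap).2 this
    have h2 : (frobenius R 2).comp (algebraMap (ZMod 2) R) = algebraMap (ZMod 2) R :=
      RingHom.ext_zmod _ _
    have h3 : ((frobenius R 2).comp (algebraMap (ZMod 2) R)).FiniteType := by rw [h2]; exact h1
    exact RingHom.FiniteType.of_comp_finiteType h3

lemma regular (P : Ideal R) [P.IsPrime] :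
    ringKrullDim (Localization.AtPrime P) =
      ((Module.finrank (IsLocalRing.ResidueField (Localization.AtPrime P))
        (IsLocalRing.CotangentSpace (Localization.AtPrime P)) : ℕ) : WithBot ℕ∞) := by
  have h1 : IsRegularLocalRing (Localization.AtPrime P) := isRegularRing_iff.mp inferInstance P
  exact ((IsRegularLocalRing.iff_finrank_cotangentSpace _).1 h1).symm

/-! ### The coefficient map -/

/-- the exponents -/
noncomputable def ex (m n : ℕ) : Fin 2 →₀ ℕ := Finsupp.equivFunOnFinite.symm ![m, n]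

@[simp] lemma ex_0 (m n : ℕ) : ex m n 0 = m := rfl
@[simp] lemma ex_1 (m n : ℕ) : ex m n 1 = n := rfl

lemma ex_eq (d : Fin 2 →₀ ℕ) : d = ex (d 0) (d 1) := by
  ext k
  fin_cases k <;> rfl

open Classical in
/-- the coefficient of `x^(q-1) y^(q-2)` over `R^q`, with `q` -/
noncomputable def psi (q : ℕ) : R →ₗ[ZMod 2] R :=
  (basisMonomials (Fin 2) (ZMod 2)).constr ℤ fun d =>
    if ∃ u v, d 0 = q * u + (q - 1) ∧ d 1 = q * v + (q - 2) then
      monomial (ex (d 0 / q) (d 1 / q)) 1 else 0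

open Classical in
lemma psi_monomial (q : ℕ) (d : Fin 2 →₀ ℕ) : psi q (monomial d 1) =
    if ∃ u v, d 0 = q * u + (q - 1) ∧ d 1 = q * v + (q - 2) then
      monomial (ex (d 0 / q) (d 1 / q)) 1 else 0 := by
  have h := (basisMonomials (Fin 2) (ZMod 2)).constr_basis ℤ (fun d =>
    if ∃ u v, d 0 = q * u + (q - 1) ∧ d 1 = q * v + (q - 2) then
      (monomial (ex (d 0 / q) (d 1 / q)) 1 : R) else 0) d
  rw [coe_basisMonomials] at h
  exact h

lemma psi_X_pow {q : ℕ} (hq : 2 ≤ q) (i : Fin 2) (f : R) :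
    psi q (X i ^ q * f) = X i * psi q f := by
  have key : (psi q).comp (LinearMap.mulLeft (ZMod 2) (X i ^ q : R)) =
      (LinearMap.mulLeft (ZMod 2) (X i : R)).comp (psi q) := by
    refine (basisMonomials (Fin 2) (ZMod 2)).ext fun d => ?_
    rw [coe_basisMonomials]
    simp only [LinearMap.comp_apply, LinearMap.mulLeft_apply]
    have e1 : (X i ^ q : R) * monomial d 1 = monomial (Finsupp.single i q + d) 1 := by
      rw [X_pow_eq_monomial, monomial_mul, one_mul]
    rw [e1, psi_monomial, psi_monomial]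
    have hd : (∃ u v, (Finsupp.single i q + d) 0 = q * u + (q - 1) ∧
        (Finsupp.single i q + d) 1 = q * v + (q - 2)) ↔
        ∃ u v, d 0 = q * u + (q - 1) ∧ d 1 = q * v + (q - 2) := by
      fin_cases i
      · simp only [Fin.zero_eta, Fin.isValue, Finsupp.coe_add, Pi.add_apply, Finsupp.single_eq_same,
          ne_eq, one_ne_zero, not_false_eq_true, Finsupp.single_eq_of_ne, zero_add]
        constructor
        · rintro ⟨u, v, h1, h2⟩
          rcases u with _ | u
          · omega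
          · refine ⟨u, v, ?_, h2⟩
            rw [mul_add, mul_one] at h1
            omega
        · rintro ⟨u, v, h1, h2⟩
          refine ⟨u + 1, v, ?_, h2⟩
          rw [mul_add, mul_one]
          omega
      · simp only [Fin.mk_one, Fin.isValue, Finsupp.coe_add, Pi.add_apply, Finsupp.single_eq_same,
          ne_eq, zero_ne_one, not_false_eq_true, Finsupp.single_eq_of_ne, zero_add]
        constructor
        · rintro ⟨u, v, h1, h2⟩
          rcases v with _ | v
          · omega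
          · refine ⟨u, v, h1, ?_⟩
            rw [mul_add, mul_one] at h2
            omega
        · rintro ⟨u, v, h1, h2⟩
          refine ⟨u, v + 1, h1, ?_⟩
          rw [mul_add, mul_one]
          omega
    have he : ex ((Finsupp.single i q + d) 0 / q) ((Finsupp.single i q + d) 1 / q) =
        Finsupp.single i 1 + ex (d 0 / q) (d 1 / q) := by
      have hq0 : 0 < q := by omega
      ext k
      fin_cases i <;> fin_cases k <;> simp [Nat.add_div_left _ hq0, add_comm]
    by_cases h : ∃ u v, d 0 = q * u + (q - 1) ∧ d 1 = q * v + (q - 2)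
    · rw [if_pos h, if_pos (hd.2 h), he]
      have : (X i : R) = monomial (Finsupp.single i 1) 1 := rfl
      rw [this, monomial_mul, one_mul]
    · rw [if_neg h, if_neg (fun h' => h (hd.1 h')), mul_zero]
  exact LinearMap.congr_fun key f

lemma psi_frob {e : ℕ} (he : 1 ≤ e) (g f : R) :
    psi (2 ^ e) (iterateFrobenius R 2 e g * f) = g * psi (2 ^ e) f := by
  have hq : 2 ≤ 2 ^ e := by
    calc 2 = 2 ^ 1 := rfl
      _ ≤ 2 ^ e := Nat.pow_le_pow_right (by norm_num) he
  induction g using MvPolynomial.induction_on generalizing f with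
  | C a =>
    have h1 : iterateFrobenius R 2 e (C a) = C a := by
      rw [iterateFrobenius_def, ← map_pow, ZMod.pow_card_pow]
    rw [h1, C_mul', C_mul', map_smul]
  | add g h hg hh => rw [map_add, add_mul, map_add, hg, hh, add_mul]
  | mul_X g i hg =>
    have h1 : iterateFrobenius R 2 e (X i) = X i ^ 2 ^ e := iterateFrobenius_def _ _ _
    rw [map_mul (iterateFrobenius R 2 e), mul_assoc, hg, h1, psi_X_pow hq, mul_assoc]

lemma psi_mem {e : ℕ} (he : 1 ≤ e) {K : Ideal R} {f : R}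
    (hf : f ∈ K.map (iterateFrobenius R 2 e)) : psi (2 ^ e) f ∈ K := by
  have key : ∀ r : R, psi (2 ^ e) (r * f) ∈ K := by
    unfold Ideal.map at hf
    induction hf using Submodule.span_induction with
    | mem x hx =>
      obtain ⟨k, hk, rfl⟩ := hx
      intro r
      have h := psi_frob he k r
      rw [mul_comm] at h
      show psi (2 ^ e) (r * iterateFrobenius R 2 e k) ∈ K
      rw [h]
      exact K.mul_mem_right _ hk
    | zero => intro r; rw [mul_zero, map_zero]; exact K.zero_mem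
    | add x y _ _ hx hy => intro r; rw [mul_add, map_add]; exact K.add_mem (hx r) (hy r)
    | smul a x _ hx => intro r; rw [smul_eq_mul, ← mul_assoc]; exact hx (r * a)
  have := key 1
  rwa [one_mul] at this

lemma char_two : (2 : R) = 0 := by
  have : ((2 : ℕ) : R) = 0 := CharP.cast_eq_zero R 2
  exact_mod_cast this

lemma add_pow_two_pow (m : ℕ) : (X 0 + X 1 : R) ^ 2 ^ m = X 0 ^ 2 ^ m + X 1 ^ 2 ^ m :=
  add_pow_expChar_pow _ _ 2 m

lemma X_add_ne : (X 0 + X 1 : R) ≠ 0 := by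
  intro h
  have := congrArg (MvPolynomial.eval ![1, 0]) h
  simp at this

lemma add_pow_pred (m : ℕ) : (X 0 + X 1 : R) ^ (2 ^ m - 1) =
    ∑ i ∈ Finset.range (2 ^ m), X 0 ^ i * X 1 ^ (2 ^ m - 1 - i) := by
  apply mul_right_cancel₀ X_add_ne
  have h1 : (X 0 + X 1 : R) ^ (2 ^ m - 1) * (X 0 + X 1) = (X 0 + X 1) ^ 2 ^ m := by
    rw [← pow_succ]
    congr 1
    have : 0 < 2 ^ m := by positivity
    omega
  have h2 := geom_sum₂_mul (X 0 : R) (X 1) (2 ^ m)
  have h3 : (X 0 - X 1 : R) = X 0 + X 1 := by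
    linear_combination -(X 1 : R) * char_two
  have h4 : (X 0 ^ 2 ^ m - X 1 ^ 2 ^ m : R) = X 0 ^ 2 ^ m + X 1 ^ 2 ^ m := by
    linear_combination -(X 1 ^ 2 ^ m : R) * char_two
  rw [h3, h4] at h2
  rw [h1, add_pow_two_pow, h2]

lemma psi_term {q w i : ℕ} (hw : 0 < w) (hq : 2 * w ≤ q) (hi : i < 2 * w) :
    psi q ((X 0 * X 1) ^ (q - 1 - w) * (X 0 ^ i * X 1 ^ (2 * w - 1 - i))) =
      if i = w then 1 else 0 := by
  have h1 : ((X 0 * X 1) ^ (q - 1 - w) * (X 0 ^ i * X 1 ^ (2 * w - 1 - i)) : R) =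
      monomial (ex (q - 1 - w + i) (q - 1 - w + (2 * w - 1 - i))) 1 := by
    have : ∀ m n : ℕ, (monomial (ex m n) 1 : R) = X 0 ^ m * X 1 ^ n := by
      intro m n
      rw [X_pow_eq_monomial, X_pow_eq_monomial, monomial_mul, one_mul]
      have : ex m n = Finsupp.single 0 m + Finsupp.single 1 n := by
        ext k
        fin_cases k <;> simp
      rw [this]
    rw [this, mul_pow, pow_add, pow_add]
    ring
  rw [h1, psi_monomial, ex_0, ex_1]
  by_cases hiw : i = w
  · subst hiw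
    have h2 : ∃ u v, q - 1 - i + i = q * u + (q - 1) ∧
        q - 1 - i + (2 * i - 1 - i) = q * v + (q - 2) := ⟨0, 0, by omega, by omega⟩
    rw [if_pos h2, if_pos rfl]
    have h3 : (q - 1 - i + i) / q = 0 := Nat.div_eq_of_lt (by omega)
    have h4 : (q - 1 - i + (2 * i - 1 - i)) / q = 0 := Nat.div_eq_of_lt (by omega)
    rw [h3, h4]
    have h5 : ex 0 0 = 0 := by
      ext k; fin_cases k <;> rfl
    rw [h5]
    rfl
  · rw [if_neg hiw, if_neg]
    rintro ⟨u, v, h2, h3⟩
    rcases u with _ | u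
    · omega
    · rw [mul_add, mul_one] at h2
      have : 0 ≤ q * u := Nat.zero_le _
      omega

lemma psi_F {e t : ℕ} (ht : t + 1 ≤ e) :
    psi (2 ^ e) ((X 0 * X 1) ^ (2 ^ e - 1 - 2 ^ t) * (X 0 + X 1) ^ (2 ^ (t + 1) - 1)) = 1 := by
  have p1 : 2 ^ (t + 1) = 2 * 2 ^ t := by ring
  have p2 : 2 ^ (t + 1) ≤ 2 ^ e := Nat.pow_le_pow_right (by norm_num) ht
  have p3 : 0 < 2 ^ t := by positivity
  rw [add_pow_pred, Finset.mul_sum, map_sum, p1]
  rw [p1] at p2
  have e1 : ∀ i ∈ Finset.range (2 * 2 ^ t),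
      psi (2 ^ e) ((X 0 * X 1) ^ (2 ^ e - 1 - 2 ^ t) * (X 0 ^ i * X 1 ^ (2 * 2 ^ t - 1 - i))) =
      if i = 2 ^ t then 1 else 0 := fun i hi => psi_term p3 p2 (Finset.mem_range.1 hi)
  rw [Finset.sum_congr rfl e1, Finset.sum_ite_eq', if_pos]
  rw [Finset.mem_range]
  omega

/-- the points where the test ideal is the whole ring -/
lemma eq_top {e t A C : ℕ} (ht : t + 1 ≤ e) (hA : A + 1 + 2 ^ t ≤ 2 ^ e)
    (hC : C + 1 ≤ 2 ^ (t + 1)) {K : Ideal R}
    (hK : ((X 0 * X 1) ^ A * (X 0 + X 1) ^ C : R) ∈ K.map (iterateFrobenius R 2 e)) : K = ⊤ := by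
  have h1 : ((X 0 * X 1) ^ (2 ^ e - 1 - 2 ^ t) * (X 0 + X 1) ^ (2 ^ (t + 1) - 1) : R) ∈
      K.map (iterateFrobenius R 2 e) := by
    have h2 : ((X 0 * X 1) ^ (2 ^ e - 1 - 2 ^ t) * (X 0 + X 1) ^ (2 ^ (t + 1) - 1) : R) =
        ((X 0 * X 1) ^ (2 ^ e - 1 - 2 ^ t - A) * (X 0 + X 1) ^ (2 ^ (t + 1) - 1 - C)) *
        ((X 0 * X 1) ^ A * (X 0 + X 1) ^ C) := by
      have a1 : 2 ^ e - 1 - 2 ^ t = (2 ^ e - 1 - 2 ^ t - A) + A := by omega
      have a2 : 2 ^ (t + 1) - 1 = (2 ^ (t + 1) - 1 - C) + C := by omega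
      conv_lhs => rw [a1, a2, pow_add, pow_add]
      ring
    rw [h2]
    exact Ideal.mul_mem_left _ _ hK
  have h3 := psi_mem (by omega) h1
  rw [psi_F ht] at h3
  exact (Ideal.eq_top_iff_one K).2 h3

/-- the maximal ideal -/
noncomputable def mm : Ideal R := Ideal.span {X 0, X 1}

lemma mm_ne_top : mm ≠ ⊤ := by
  intro h
  have h1 : (1 : R) ∈ mm := by rw [h]; trivial
  have h2 : mm ≤ RingHom.ker (MvPolynomial.constantCoeff (σ := Fin 2) (R := ZMod 2)) := by
    unfold mm
    rw [Ideal.span_le]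
    rintro x hx
    rcases hx with rfl | hx
    · simp
    · rw [Set.mem_singleton_iff] at hx
      subst hx
      simp
  have h3 := h2 h1
  rw [RingHom.mem_ker, map_one] at h3
  exact one_ne_zero h3

lemma pow_mem_map (e : ℕ) (i : Fin 2) : (X i ^ 2 ^ e : R) ∈ mm.map (iterateFrobenius R 2 e) := by
  rw [← iterateFrobenius_def]
  apply Ideal.mem_map_of_mem
  apply Ideal.subset_span
  fin_cases i <;> simp

/-- the points where the test ideal is contained in the maximal ideal -/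
lemma mem_mm {e m A C : ℕ} (hA : 2 ^ e ≤ A + 2 ^ m) (hC : 2 ^ m ≤ C) :
    ((X 0 * X 1) ^ A * (X 0 + X 1) ^ C : R) ∈ mm.map (iterateFrobenius R 2 e) := by
  have h1 : ((X 0 * X 1) ^ A * (X 0 + X 1) ^ C : R) =
      (X 0 + X 1) ^ (C - 2 ^ m) * ((X 0 * X 1) ^ A * (X 0 ^ 2 ^ m + X 1 ^ 2 ^ m)) := by
    have a : C = (C - 2 ^ m) + 2 ^ m := by omega
    conv_lhs => rw [a, pow_add, add_pow_two_pow]
    ring
  rw [h1]
  apply Ideal.mul_mem_left
  have h2 : ((X 0 * X 1) ^ A * (X 0 ^ 2 ^ m + X 1 ^ 2 ^ m) : R) =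
      X 1 ^ A * X 0 ^ (A + 2 ^ m - 2 ^ e) * X 0 ^ 2 ^ e +
      X 0 ^ A * X 1 ^ (A + 2 ^ m - 2 ^ e) * X 1 ^ 2 ^ e := by
    rw [mul_assoc, mul_assoc, ← pow_add, ← pow_add]
    have a : A + 2 ^ m - 2 ^ e + 2 ^ e = A + 2 ^ m := by omega
    rw [a, mul_pow, pow_add, pow_add]
    ring
  rw [h2]
  exact Ideal.add_mem _ (Ideal.mul_mem_left _ _ (pow_mem_map e 0))
    (Ideal.mul_mem_left _ _ (pow_mem_map e 1))

lemma mem_mm' {e A C : ℕ} (hA : 2 ^ e ≤ A) :
    ((X 0 * X 1) ^ A * (X 0 + X 1) ^ C : R) ∈ mm.map (iterateFrobenius R 2 e) := by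
  have h1 : ((X 0 * X 1) ^ A * (X 0 + X 1) ^ C : R) =
      (X 0 + X 1) ^ C * X 1 ^ A * X 0 ^ (A - 2 ^ e) * X 0 ^ 2 ^ e := by
    rw [mul_assoc, ← pow_add]
    have a : A - 2 ^ e + 2 ^ e = A := by omega
    rw [a]
    ring
  rw [h1]
  exact Ideal.mul_mem_left _ _ (pow_mem_map e 0)

end Pool.Agent.N150.TI
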