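import Pool.Agent.N150.TI.Frob

/-! # The constancy regions are not polyhedral -/

set_option autoImplicit false

open MvPolynomial Set

namespace Pool.Agent.N150.TI

/-- the two ideals -/
noncomputable def II : Fin 2 → Ideal R := ![Ideal.span {X 0 * X 1}, Ideal.span {X 0 + X 1}]

/-- the mixed test ideal -/
noncomputable def tau (x : Fin 2 → ℝ) : Ideal R :=
  ⨆ e : ℕ, sInf {K : Ideal R |
    (∏ i, II i ^ ⌈x i * ((2 : ℕ) : ℝ) ^ e⌉₊) ≤ Ideal.map (iterateFrobenius R 2 e) K}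

lemma prod_eq (n : Fin 2 → ℕ) : (∏ i, II i ^ n i) =
    Ideal.span {((X 0 * X 1) ^ n 0 * (X 0 + X 1) ^ n 1 : R)} := by
  rw [Fin.prod_univ_two]
  show Ideal.span {(X 0 * X 1 : R)} ^ n 0 * Ideal.span {(X 0 + X 1 : R)} ^ n 1 = _
  rw [Ideal.span_singleton_pow, Ideal.span_singleton_pow, Ideal.span_singleton_mul_span_singleton]

lemma prod_le_iff (n : Fin 2 → ℕ) (J : Ideal R) : (∏ i, II i ^ n i) ≤ J ↔
    ((X 0 * X 1) ^ n 0 * (X 0 + X 1) ^ n 1 : R) ∈ J := by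
  rw [prod_eq, Ideal.span_singleton_le_iff_mem]

lemma tau_top {x : Fin 2 → ℝ} {s : ℕ} (hs : 1 ≤ s) (h0 : 0 ≤ x 0) (h0' : 0 ≤ x 1)
    (h1 : x 0 < 1 - (1 / 2) ^ s) (h2 : x 1 < 2 * (1 / 2) ^ s) : tau x = ⊤ := by
  obtain ⟨δ, hδ, hδ1, hδ2⟩ : ∃ δ : ℝ, 0 < δ ∧ δ ≤ 1 - (1 / 2) ^ s - x 0 ∧
      δ ≤ 2 * (1 / 2) ^ s - x 1 :=
    ⟨min (1 - (1 / 2) ^ s - x 0) (2 * (1 / 2) ^ s - x 1), lt_min (by linarith) (by linarith),
      min_le_left _ _, min_le_right _ _⟩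
  obtain ⟨n, hn⟩ := pow_unbounded_of_one_lt (2 / δ) (one_lt_two : (1 : ℝ) < 2)
  have hn' : 2 < δ * 2 ^ (n + s) := by
    rw [div_lt_iff₀ hδ] at hn
    have : (2 : ℝ) ^ n ≤ 2 ^ (n + s) := pow_le_pow_right₀ one_le_two (by omega)
    nlinarith
  have hsplit : (2 : ℝ) ^ (n + s) * (1 / 2) ^ s = 2 ^ n := by
    rw [pow_add, mul_assoc, ← mul_pow]
    norm_num
  have hq : (0 : ℝ) < 2 ^ (n + s) := by positivity
  refine top_le_iff.1 (le_trans ?_ (le_iSup _ (n + s)))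
  rw [top_le_iff, sInf_eq_top]
  intro K hK
  rw [mem_ofPred_eq, prod_le_iff] at hK
  refine eq_top (t := n) (by omega) ?_ ?_ hK
  · have h3 : (⌈x 0 * ((2 : ℕ) : ℝ) ^ (n + s)⌉₊ : ℝ) < x 0 * 2 ^ (n + s) + 1 :=
      Nat.ceil_lt_add_one (by positivity)
    have h4 : (⌈x 0 * ((2 : ℕ) : ℝ) ^ (n + s)⌉₊ : ℝ) + 1 + 2 ^ n < 2 ^ (n + s) := by
      have : δ * 2 ^ (n + s) ≤ (1 - (1 / 2) ^ s - x 0) * 2 ^ (n + s) :=
        mul_le_mul_of_nonneg_right hδ1 hq.le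
      nlinarith
    have h5 : ((⌈x 0 * ((2 : ℕ) : ℝ) ^ (n + s)⌉₊ + 1 + 2 ^ n : ℕ) : ℝ) < ((2 ^ (n + s) : ℕ) : ℝ) := by
      push_cast at h4 ⊢
      exact h4
    exact (Nat.cast_lt.1 h5).le
  · have h3 : (⌈x 1 * ((2 : ℕ) : ℝ) ^ (n + s)⌉₊ : ℝ) < x 1 * 2 ^ (n + s) + 1 :=
      Nat.ceil_lt_add_one (by positivity)
    have h4 : (⌈x 1 * ((2 : ℕ) : ℝ) ^ (n + s)⌉₊ : ℝ) + 1 < 2 ^ (n + 1) := by
      have : δ * 2 ^ (n + s) ≤ (2 * (1 / 2) ^ s - x 1) * 2 ^ (n + s) :=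
        mul_le_mul_of_nonneg_right hδ2 hq.le
      have e : (2 : ℝ) ^ (n + 1) = 2 * 2 ^ n := by ring
      nlinarith
    have h5 : ((⌈x 1 * ((2 : ℕ) : ℝ) ^ (n + s)⌉₊ + 1 : ℕ) : ℝ) < ((2 ^ (n + 1) : ℕ) : ℝ) := by
      push_cast at h4 ⊢
      exact h4
    exact (Nat.cast_lt.1 h5).le

lemma half_pow_le {s : ℕ} (hs : 1 ≤ s) : (1 / 2 : ℝ) ^ s ≤ 1 / 2 := by
  calc (1 / 2 : ℝ) ^ s ≤ (1 / 2) ^ 1 := pow_le_pow_of_le_one (by norm_num) (by norm_num) hs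
    _ = 1 / 2 := by norm_num

lemma tau_le {x : Fin 2 → ℝ} {s : ℕ} (h1 : 1 - (1 / 2) ^ s ≤ x 0) (h2 : (1 / 2) ^ s ≤ x 1) :
    tau x ≤ mm := by
  refine iSup_le fun e => sInf_le ?_
  rw [mem_ofPred_eq, prod_le_iff]
  have hq : (0 : ℝ) < 2 ^ e := by positivity
  have c0 : x 0 * ((2 : ℕ) : ℝ) ^ e ≤ (⌈x 0 * ((2 : ℕ) : ℝ) ^ e⌉₊ : ℝ) := Nat.le_ceil _
  have c1 : x 1 * ((2 : ℕ) : ℝ) ^ e ≤ (⌈x 1 * ((2 : ℕ) : ℝ) ^ e⌉₊ : ℝ) := Nat.le_ceil _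
  have d0 : (1 - (1 / 2) ^ s) * 2 ^ e ≤ x 0 * 2 ^ e := mul_le_mul_of_nonneg_right h1 hq.le
  have d1 : (1 / 2) ^ s * 2 ^ e ≤ x 1 * 2 ^ e := mul_le_mul_of_nonneg_right h2 hq.le
  rcases le_or_gt s e with hse | hse
  · obtain ⟨m, rfl⟩ : ∃ m, e = m + s := ⟨e - s, by omega⟩
    have hsplit : (1 / 2 : ℝ) ^ s * 2 ^ (m + s) = 2 ^ m := by
      rw [pow_add, mul_comm, mul_assoc, ← mul_pow]
      norm_num
    refine mem_mm (m := m) ?_ ?_
    · have : ((2 ^ (m + s) : ℕ) : ℝ) ≤ ((⌈x 0 * ((2 : ℕ) : ℝ) ^ (m + s)⌉₊ + 2 ^ m : ℕ) : ℝ) := by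
        push_cast at c0 ⊢
        nlinarith
      exact_mod_cast this
    · have : ((2 ^ m : ℕ) : ℝ) ≤ ((⌈x 1 * ((2 : ℕ) : ℝ) ^ (m + s)⌉₊ : ℕ) : ℝ) := by
        push_cast at c1 ⊢
        linarith
      exact_mod_cast this
  · apply mem_mm'
    have h3 : (1 / 2 : ℝ) ^ s * 2 ^ e < 1 := by
      obtain ⟨k, rfl⟩ : ∃ k, s = e + (k + 1) := ⟨s - e - 1, by omega⟩
      have h5 : (1 / 2 : ℝ) ^ (e + (k + 1)) * 2 ^ e = (1 / 2) ^ (k + 1) := by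
        rw [pow_add, mul_right_comm, ← mul_pow]
        norm_num
      rw [h5]
      have := half_pow_le (s := k + 1) (by omega)
      linarith
    have h4 : ((2 ^ e : ℕ) : ℝ) < ((⌈x 0 * ((2 : ℕ) : ℝ) ^ e⌉₊ + 1 : ℕ) : ℝ) := by
      push_cast at c0 ⊢
      nlinarith
    have h5 := Nat.cast_lt.1 h4
    omega

/-- the open boxes -/
def box (s : ℕ) : Set (Fin 2 → ℝ) :=
  {x | 1 - (1 / 2) ^ s - (1 / 2) ^ s / 16 < x 0 ∧ x 0 < 1 - (1 / 2) ^ s ∧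
    2 * (1 / 2) ^ s - (1 / 2) ^ s / 4 < x 1 ∧ x 1 < 2 * (1 / 2) ^ s}

lemma isOpen_box (s : ℕ) : IsOpen (box s) := by
  have h0 : Continuous (fun x : Fin 2 → ℝ => x 0) := continuous_apply 0
  have h1 : Continuous (fun x : Fin 2 → ℝ => x 1) := continuous_apply 1
  exact (isOpen_lt continuous_const h0).inter ((isOpen_lt h0 continuous_const).inter
    ((isOpen_lt continuous_const h1).inter (isOpen_lt h1 continuous_const)))

lemma box_nonempty (s : ℕ) : (box s).Nonempty := by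
  have : (0 : ℝ) < (1 / 2) ^ s := by positivity
  refine ⟨![1 - (1 / 2) ^ s - (1 / 2) ^ s / 32, 2 * (1 / 2) ^ s - (1 / 2) ^ s / 8], ?_⟩
  simp only [box, mem_ofPred_eq, Matrix.cons_val_zero, Matrix.cons_val_one]
  refine ⟨?_, ?_, ?_, ?_⟩ <;> linarith

lemma box_sub {s : ℕ} (hs : 1 ≤ s) {x : Fin 2 → ℝ} (hx : x ∈ box s) :
    ∀ i, 0 ≤ x i ∧ x i ≤ 1 := by
  have h0 : (0 : ℝ) < (1 / 2) ^ s := by positivity
  have h1 := half_pow_le hs
  obtain ⟨a, b, c, d⟩ := hx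
  intro i
  fin_cases i
  · show 0 ≤ x 0 ∧ x 0 ≤ 1
    constructor <;> linarith
  · show 0 ≤ x 1 ∧ x 1 ≤ 1
    constructor <;> linarith

lemma tau_box {s : ℕ} (hs : 1 ≤ s) {x : Fin 2 → ℝ} (hx : x ∈ box s) : tau x = ⊤ :=
  tau_top hs ((box_sub hs hx) 0).1 ((box_sub hs hx) 1).1 hx.2.1 hx.2.2.2

/-- a segment between two boxes meets the complement -/
lemma exists_between {s s' : ℕ} (hs : s < s') {u v : Fin 2 → ℝ} (hu : u ∈ box s)
    (hv : v ∈ box s') : ∃ w ∈ segment ℝ u v, tau w ≤ mm := by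
  obtain ⟨a, b, c, d⟩ := hu
  obtain ⟨a', b', c', d'⟩ := hv
  obtain ⟨r, hr⟩ : ∃ r : ℝ, r = (1 / 2) ^ s := ⟨_, rfl⟩
  obtain ⟨r', hr'⟩ : ∃ r' : ℝ, r' = (1 / 2) ^ s' := ⟨_, rfl⟩
  have h0 : 0 < r := by rw [hr]; positivity
  have h0' : 0 < r' := by rw [hr']; positivity
  have h1 : r' ≤ r / 2 := by
    rw [hr, hr']
    calc (1 / 2 : ℝ) ^ s' ≤ (1 / 2) ^ (s + 1) :=
          pow_le_pow_of_le_one (by norm_num) (by norm_num) hs
      _ = (1 / 2) ^ s / 2 := by ring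
  rw [← hr] at a b c d
  rw [← hr'] at a' b' c' d'
  have hlt : u 0 < v 0 := by linarith
  obtain ⟨t, ht⟩ : ∃ t, t = (1 - r - u 0) / (v 0 - u 0) := ⟨_, rfl⟩
  have hvu : 0 < v 0 - u 0 := by linarith
  have ht0 : 0 ≤ t := by rw [ht]; exact div_nonneg (by linarith) hvu.le
  have ht1 : t ≤ 1 / 4 := by
    rw [ht, div_le_iff₀ hvu]
    linarith
  refine ⟨(1 - t) • u + t • v, ⟨1 - t, t, by linarith, ht0, by ring, rfl⟩, ?_⟩
  refine tau_le (s := s) ?_ ?_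
  · rw [← hr]
    simp only [Pi.add_apply, Pi.smul_apply, smul_eq_mul]
    have : t * (v 0 - u 0) = 1 - r - u 0 := by rw [ht]; field_simp
    linarith
  · rw [← hr]
    simp only [Pi.add_apply, Pi.smul_apply, smul_eq_mul]
    have h3 : 0 ≤ t * v 1 := mul_nonneg ht0 (by linarith)
    have h4 : 0 ≤ (1 / 4 - t) * u 1 := mul_nonneg (by linarith) (by linarith)
    nlinarith

/-- an open set covered by finitely many closed sets meets the interior of one of them -/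
lemma exists_interior {X : Type*} [TopologicalSpace X] (n : ℕ) (P : Fin n → Set X)
    (hP : ∀ k, IsClosed (P k)) {B : Set X} (hB : IsOpen B) (hne : B.Nonempty)
    (hsub : B ⊆ ⋃ k, P k) : ∃ k, (interior (P k) ∩ B).Nonempty := by
  induction n generalizing B with
  | zero =>
    obtain ⟨x, hx⟩ := hne
    obtain ⟨k, -⟩ := mem_iUnion.1 (hsub hx)
    exact k.elim0
  | succ n ih =>
    by_cases h : (B \ P (Fin.last n)).Nonempty
    · have h1 : IsOpen (B \ P (Fin.last n)) := hB.sdiff (hP _)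
      obtain ⟨k, x, hx1, hx2⟩ := ih (fun k => P k.castSucc) (fun k => hP _) h1 h (by
        rintro x ⟨hx, hx'⟩
        obtain ⟨k, hk⟩ := mem_iUnion.1 (hsub hx)
        refine mem_iUnion.2 ?_
        induction k using Fin.lastCases with
        | last => exact absurd hk hx'
        | cast k => exact ⟨k, hk⟩)
      exact ⟨k.castSucc, x, hx1, hx2.1⟩
    · rw [not_nonempty_iff_eq_empty, sdiff_eq_empty] at h
      obtain ⟨x, hx⟩ := hne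
      exact ⟨Fin.last n, x, interior_maximal h hB hx, hx⟩

lemma isClosed_poly {m : ℕ} (A : Fin m → Fin 2 → ℚ) (b : Fin m → ℚ) :
    IsClosed {x : Fin 2 → ℝ | ∀ j, ∑ i, (A j i : ℝ) * x i ≤ (b j : ℝ)} := by
  rw [ofPred_forall]
  refine isClosed_iInter fun j => isClosed_le ?_ continuous_const
  fun_prop

lemma convex_poly {m : ℕ} (A : Fin m → Fin 2 → ℚ) (b : Fin m → ℚ) :
    Convex ℝ {x : Fin 2 → ℝ | ∀ j, ∑ i, (A j i : ℝ) * x i ≤ (b j : ℝ)} := by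
  intro x hx y hy s t hs ht hst j
  have h1 := mul_le_mul_of_nonneg_left (hx j) hs
  have h2 := mul_le_mul_of_nonneg_left (hy j) ht
  have h3 : ∑ i, (A j i : ℝ) * (s • x + t • y) i = s * ∑ i, (A j i : ℝ) * x i +
      t * ∑ i, (A j i : ℝ) * y i := by
    rw [Finset.mul_sum, Finset.mul_sum, ← Finset.sum_add_distrib]
    refine Finset.sum_congr rfl fun i _ => ?_
    simp only [Pi.add_apply, Pi.smul_apply, smul_eq_mul]
    ring
  rw [h3]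
  have h4 : (s + t) * (b j : ℝ) = b j := by rw [hst, one_mul]
  nlinarith

theorem main : ¬ ∃ (n : ℕ) (P : Fin n → Set (Fin 2 → ℝ)),
    (∀ k, ∃ (m : ℕ) (A : Fin m → Fin 2 → ℚ) (b : Fin m → ℚ),
      P k = {x : Fin 2 → ℝ | ∀ j, ∑ i, (A j i : ℝ) * x i ≤ (b j : ℝ)}) ∧
    {x : Fin 2 → ℝ | ∀ i, 0 ≤ x i ∧ x i ≤ 1} ⊆ ⋃ k, P k ∧
    ∀ k, ∀ x ∈ interior (P k), ∀ y ∈ interior (P k), tau x = tau y := by
  rintro ⟨n, P, hP, hcov, hconst⟩
  have hcl : ∀ k, IsClosed (P k) := by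
    intro k
    obtain ⟨m, A, b, h⟩ := hP k
    rw [h]
    exact isClosed_poly A b
  have hcv : ∀ k, Convex ℝ (P k) := by
    intro k
    obtain ⟨m, A, b, h⟩ := hP k
    rw [h]
    exact convex_poly A b
  have hk : ∀ s : Fin (n + 1), ∃ k, (interior (P k) ∩ box (s.1 + 1)).Nonempty := fun s =>
    exists_interior n P hcl (isOpen_box _) (box_nonempty _)
      fun x hx => hcov (box_sub (by omega) hx)
  choose f hf using hk
  obtain ⟨s, s', hss, hfs⟩ := Fintype.exists_ne_map_eq_of_card_lt f (by simp)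
  have key : ∀ s s' : Fin (n + 1), s < s' → f s = f s' → False := by
    intro s s' hlt heq
    obtain ⟨u, hu1, hu2⟩ := hf s
    obtain ⟨v, hv1, hv2⟩ := hf s'
    rw [← heq] at hv1
    obtain ⟨w, hw, hw2⟩ := exists_between (by have := Fin.lt_def.1 hlt; omega) hu2 hv2
    have hw1 : w ∈ interior (P (f s)) := (hcv _).interior.segment_subset hu1 hv1 hw
    have h1 := hconst (f s) w hw1 u hu1
    rw [tau_box (by omega) hu2] at h1
    rw [h1, top_le_iff] at hw2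
    exact mm_ne_top hw2
  rcases lt_or_gt_of_ne hss with h | h
  · exact key s s' h hfs
  · exact key s' s h hfs.symm

end Pool.Agent.N150.TI
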